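import Pool.Agent.UMG.StmtsB

set_option autoImplicit false

namespace Pool.Agent.UMG.B.H2

open Finset Pool.Agent.UMG Pool.Agent.UMG.B

/-- a list of bundles with numbers in an explicit range -/
theorem mts_len {j : ℕ} {L : List (ℕ × ℕ × ℕ)} {n : ℕ} (hn : L.length = n)
    (h : EqD (fun m : Mt (gB L) => QQ (nuB L) m.1) (fun x : Fin (F j L.length) => Qc (mt j L x))) :
    EqD (fun m : Mt (gB L) => QQ (nuB L) m.1) (fun x : Fin (F j n) => Qc (mt j L x)) := by
  subst hn
  exact h

theorem mts (h1 : MtrStmt) (h2 : MtxStmt) : MtsStmt := by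
  intro j L hj
  induction hn : L.length using Nat.strong_induction_on generalizing L with
  | _ n ih =>
    intro hL
    cases L with
    | nil =>
      subst hn
      have hm : ∀ m : Mt (gB []), QQ (nuB []) m.1 = 0 := by
        intro m
        funext v w
        have : IsEmpty (HB []) := inferInstanceAs (IsEmpty Empty)
        exact Nat.card_eq_zero.2 (Or.inl inferInstance)
      have hU : Unique (Mt (gB [])) := by
        have hE : IsEmpty (HB []) := inferInstanceAs (IsEmpty Empty)
        exact ⟨⟨⟨fun h => isEmptyElim h, ⟨fun h => isEmptyElim h, fun h => isEmptyElim h,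
          fun h => isEmptyElim h⟩⟩⟩, fun m => Subtype.ext (funext fun h => isEmptyElim h)⟩
      have hU2 : Unique (Fin (F j ([] : List (ℕ × ℕ × ℕ)).length)) :=
        inferInstanceAs (Unique (Fin 1))
      refine ⟨Equiv.ofUnique _ _, fun m => ?_⟩
      refine Eq.trans ?_ (hm m).symm
      simp only [mt]
      rfl
    | cons b L =>
      have hb : bsz b = j := hL b (by simp)
      have hL' : ∀ b' ∈ L, bsz b' = j := fun b' hb' => hL b' (by simp [hb'])
      have hlen : L.length + 1 = n := by simpa using hn
      subst hn
      have e1 := h1 b L (by omega) (fun b' hb' => by rw [hL' b' hb', hb])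
      rw [hb] at e1
      have e2 := h2 j b L
      have ihL : EqD (fun m : Mt (gB L) => QQ (nuB L) m.1)
          (fun x : Fin (F j L.length) => Qc (mt j L x)) :=
        ih L.length (by simp) L rfl hL'
      have ihE : ∀ p : Fin L.length, EqD (fun m : Mt (gB (L.eraseIdx p)) =>
          QQ (nuB (L.eraseIdx p)) m.1)
          (fun x : Fin (F j (L.length - 1)) => Qc (mt j (L.eraseIdx p) x)) := by
        intro p
        have hlp : (L.eraseIdx p).length = L.length - 1 := by
          rw [List.length_eraseIdx]
          simp [p.2]
        refine mts_len hlp ?_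
        have := ih (L.eraseIdx p).length (by rw [hlp, List.length_cons]; omega) (L.eraseIdx p) rfl
          (fun b' hb' => hL' b' (List.mem_of_mem_eraseIdx hb'))
        exact this
      refine (e1.trans ?_).trans e2.symm
      refine EqD.sumElim ((ihL.const (Qc (selfE j b))).sub (2 ∣ j)) ?_
      refine EqD.sigma (q := fun (p : Fin L.length) (z : Fin j × Mt (gB (L.eraseIdx p))) =>
          Qc (pairE j z.1 b (L.get p)) + QQ (nuB (L.eraseIdx p)) z.2.1)
        (q' := fun (p : Fin L.length) (z : Fin j × Fin (F j (L.length - 1))) =>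
          Qc (pairE j z.1 b (L.get p)) + Qc (mt j (L.eraseIdx p) z.2)) ?_
      intro p
      exact EqD.add (q1 := fun r : Fin j => Qc (pairE j r b (L.get p)))
        (q1' := fun r : Fin j => Qc (pairE j r b (L.get p))) (EqD.refl _) (ihE p)

end Pool.Agent.UMG.B.H2
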