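import Pool.Agent.UMG.StmtsD

/-!
# Row OMB of squad UMG (MP_34c13a_lc): the entries are at most the number of half-edges
-/

set_option autoImplicit false

namespace Pool.Agent.UMG.D.H2

open Finset

/-- **OMB** -/
theorem omb : OmbStmt := by
  intro d A hA v w
  have h1 : deg A v ∈ Multiset.map (deg A) Finset.univ.val :=
    Multiset.mem_map.2 ⟨v, Finset.mem_univ_val v, rfl⟩
  rw [hA.2] at h1
  have h2 : deg A v ∈ d := Multiset.mem_coe.1 h1
  have h3 : deg A v ≤ d.sum := List.single_le_sum (fun _ _ => Nat.zero_le _) _ h2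
  have h4 : A v w ≤ ∑ w, A v w :=
    Finset.single_le_sum (f := fun w => A v w) (fun _ _ => Nat.zero_le _) (Finset.mem_univ w)
  have h5 : ∑ w, A v w ≤ deg A v := Nat.le_add_right _ _
  exact h4.trans (h5.trans h3)

end Pool.Agent.UMG.D.H2
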